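import Pool.Agent.helper81.CX.Spec2
import Pool.Agent.helper12.CL.FAR

/-!
# Project cx (MP_447e26_gt): row FRE
-/

set_option autoImplicit false

open MeasureTheory Set Filter Topology
open scoped ENNReal
open Pool.Agent.helper81.CW

noncomputable section

namespace Pool.Agent.CX

theorem FRE_unhom {n : ℕ} (x : E n) (r : ℝ) (hr : 0 < r) : un (r • x) = un x := by
  unfold un
  rw [norm_smul, Real.norm_of_nonneg hr.le, mul_inv, smul_smul]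
  congr 1
  field_simp

theorem FRE_undist {n : ℕ} (x : E n) (s : ℝ) : ‖un x - s⁻¹ • x‖ ≤ |‖x‖ / s - 1| := by
  by_cases hx : x = 0
  · subst hx
    simp [un]
  · have hx' : ‖x‖ ≠ 0 := norm_ne_zero_iff.2 hx
    have h1 : un x - s⁻¹ • x = (‖x‖⁻¹ - s⁻¹) • x := by
      unfold un
      rw [sub_smul]
    rw [h1, norm_smul, Real.norm_eq_abs]
    have h2 : |‖x‖⁻¹ - s⁻¹| * ‖x‖ = |‖x‖ / s - 1| := by
      rw [← abs_norm x, ← abs_mul, abs_norm, sub_mul, inv_mul_cancel₀ hx', abs_sub_comm, div_eq_inv_mul]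
    exact h2.le

theorem FRE_sq (A d κ : ℝ) (hκ : 0 < κ) : (A + d) ^ 2 ≤ (1 + κ) * A ^ 2 + (1 + κ⁻¹) * d ^ 2 := by
  have h1 : 0 ≤ κ * (A - κ⁻¹ * d) ^ 2 := by positivity
  have h2 : κ * (A - κ⁻¹ * d) ^ 2 = κ * A ^ 2 - 2 * A * d + κ⁻¹ * d ^ 2 := by
    field_simp
    ring
  nlinarith

theorem FRE (hG1 : G1_stmt) (hJ2 : J2_stmt) (hNRQ : NRQ_stmt) (hINT : INT_stmt) (hSEL : SEL_stmt) : FRE_stmt := by
  intro η hη
  have _ := hJ2
  obtain ⟨κ, hκ⟩ : ∃ κ : ℝ, κ = η / 8 := ⟨_, rfl⟩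
  have hκ0 : 0 < κ := by rw [hκ]; positivity
  -- the choice of n
  have hs : Tendsto (fun n : ℕ => (Real.sqrt (n : ℝ))⁻¹) atTop (𝓝 0) :=
    tendsto_inv_atTop_zero.comp (Real.tendsto_sqrt_atTop.comp tendsto_natCast_atTop_atTop)
  have hlim : Tendsto (fun n : ℕ => (1 + κ) * (1 - η + 2 * (Real.sqrt (n : ℝ))⁻¹) +
      (1 + κ⁻¹) * (6 * ((Real.sqrt (n : ℝ))⁻¹) ^ 2)) atTop
      (𝓝 ((1 + κ) * (1 - η + 2 * 0) + (1 + κ⁻¹) * (6 * 0 ^ 2))) :=
    (((hs.const_mul 2).const_add (1 - η)).const_mul (1 + κ)).add (((hs.pow 2).const_mul 6).const_mul (1 + κ⁻¹))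
  have hlt : (1 + κ) * (1 - η + 2 * 0) + (1 + κ⁻¹) * (6 * 0 ^ 2) < 1 - η / 2 := by
    have : κ * η > 0 := by positivity
    nlinarith
  filter_upwards [hlim.eventually (gt_mem_nhds hlt), eventually_ge_atTop 1] with n hn hn1
  intro C M W a mu p t c g hC hC2 hM hsup ha0 ha1 hmu0 hmu1 hp ht0 ht1 hc0 hc1 hW hWe hWh hWm hq hR
  have hprob : IsProbabilityMeasure (gm n) := (hG1 n).1
  have hn0 : (0 : ℝ) < n := by exact_mod_cast hn1
  have hsn : 0 < Real.sqrt n := Real.sqrt_pos.2 hn0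
  obtain ⟨s, hsd⟩ : ∃ s : ℝ, s = Real.sqrt n := ⟨_, rfl⟩
  have hs0 : 0 < s := by rw [hsd]; exact hsn
  have hs2 : s ^ 2 = n := by rw [hsd, Real.sq_sqrt hn0.le]
  rw [← hsd] at hn
  have hcomp : IsCompact C := hC.2.1
  have hne : C.Nonempty := hC.1
  have hunm : Measurable (fun x : E n => un x) := by
    unfold un
    exact (measurable_norm.inv).smul measurable_id
  have hzm : Measurable (fun x : E n => a • un x + W x) := (hunm.const_smul a).add hW.1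
  obtain ⟨y, hym, hyC, hyh, hyf⟩ := hSEL n C (fun x => a • un x + W x) s⁻¹ hcomp hne hzm (inv_pos.2 hs0)
    (fun x r hr => by rw [FRE_unhom x r hr, hWh x r hr])
  have hA := hINT n C M W y a mu p t c g hn1 hC hC2 hM hsup hmu0 hmu1 hp ht0 ht1 hc0 hc1 hW hWe hWm hq hym hyC hyh
  rw [← hsd] at hA
  obtain ⟨hNi, hNb⟩ := hNRQ n hn1
  rw [← hsd] at hNi hNb
  -- the integrand A²
  have hAm : Measurable (fun x : E n => (a / s) • x + W x - y x) :=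
    ((measurable_id.const_smul (a / s)).add hW.1).sub hym
  have hy1 : ∀ x, ‖y x‖ ≤ 1 := by
    intro x
    have := hC2 (y x) (hyC x)
    nlinarith [norm_nonneg (y x)]
  have hAi : Integrable (fun x : E n => ‖(a / s) • x + W x - y x‖ ^ 2) (gm n) := by
    have hdom : Integrable (fun x : E n => 4 * (‖x‖ / s - 1) ^ 2 + 32) (gm n) :=
      (hNi.const_mul 4).add (integrable_const _)
    refine hdom.mono' (hAm.norm.pow_const 2).aestronglyMeasurable (ae_of_all _ fun x => ?_)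
    rw [Real.norm_of_nonneg (sq_nonneg _)]
    have h1 : ‖(a / s) • x + W x - y x‖ ≤ |‖x‖ / s - 1| + 4 := by
      have h2 : ‖(a / s) • x + W x - y x‖ ≤ ‖(a / s) • x‖ + ‖W x‖ + ‖y x‖ :=
        (norm_sub_le _ _).trans (add_le_add (norm_add_le _ _) le_rfl)
      have h3 : ‖(a / s) • x‖ ≤ ‖x‖ / s := by
        rw [norm_smul, Real.norm_of_nonneg (by positivity), div_mul_eq_mul_div, mul_comm]
        exact div_le_div_of_nonneg_right (by nlinarith [norm_nonneg x]) hs0.le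
      have h4 := hW.2 x
      have h5 := hy1 x
      have h6 := le_abs_self (‖x‖ / s - 1)
      linarith
    have h7 : 0 ≤ ‖(a / s) • x + W x - y x‖ := norm_nonneg _
    have h8 : (|‖x‖ / s - 1|) ^ 2 = (‖x‖ / s - 1) ^ 2 := sq_abs _
    have h9 : ‖(a / s) • x + W x - y x‖ ^ 2 ≤ (|‖x‖ / s - 1| + 4) ^ 2 := by
      exact pow_le_pow_left₀ h7 h1 2
    nlinarith [sq_nonneg (|‖x‖ / s - 1| - 4), abs_nonneg (‖x‖ / s - 1)]
  -- pointwise bound
  have hpt : ∀ x : E n, Pool.Agent.CL.far C (a • un x + W x) ^ 2 ≤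
      (1 + κ) * ‖(a / s) • x + W x - y x‖ ^ 2 + (1 + κ⁻¹) * (2 * (‖x‖ / s - 1) ^ 2 + 2 * s⁻¹ ^ 2) := by
    intro x
    have hfar0 : 0 ≤ Pool.Agent.CL.far C (a • un x + W x) := by
      obtain ⟨v, -, hv⟩ := Pool.Agent.CL.FAR_att hcomp hne (a • un x + W x)
      rw [← hv]
      exact norm_nonneg _
    have h1 := hyf x
    have h2 : ‖a • un x + W x - y x‖ ≤ ‖(a / s) • x + W x - y x‖ + |‖x‖ / s - 1| := by
      have h3 : a • un x + W x - y x = ((a / s) • x + W x - y x) + a • (un x - s⁻¹ • x) := by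
        rw [smul_sub, smul_smul, ← div_eq_mul_inv]
        abel
      rw [h3]
      refine (norm_add_le _ _).trans (add_le_add le_rfl ?_)
      rw [norm_smul, Real.norm_of_nonneg ha0]
      have h4 := FRE_undist x s
      nlinarith [norm_nonneg (un x - s⁻¹ • x)]
    have h5 : Pool.Agent.CL.far C (a • un x + W x) ≤
        ‖(a / s) • x + W x - y x‖ + (|‖x‖ / s - 1| + s⁻¹) := by linarith
    have h6 := FRE_sq ‖(a / s) • x + W x - y x‖ (|‖x‖ / s - 1| + s⁻¹) κ hκ0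
    have h7 : (|‖x‖ / s - 1| + s⁻¹) ^ 2 ≤ 2 * (‖x‖ / s - 1) ^ 2 + 2 * s⁻¹ ^ 2 := by
      have h8 : (|‖x‖ / s - 1|) ^ 2 = (‖x‖ / s - 1) ^ 2 := sq_abs _
      nlinarith [sq_nonneg (|‖x‖ / s - 1| - s⁻¹)]
    have h9 : 0 ≤ 1 + κ⁻¹ := by positivity
    calc Pool.Agent.CL.far C (a • un x + W x) ^ 2
        ≤ (‖(a / s) • x + W x - y x‖ + (|‖x‖ / s - 1| + s⁻¹)) ^ 2 := pow_le_pow_left₀ hfar0 h5 2
      _ ≤ (1 + κ) * ‖(a / s) • x + W x - y x‖ ^ 2 + (1 + κ⁻¹) * (|‖x‖ / s - 1| + s⁻¹) ^ 2 := h6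
      _ ≤ _ := by
        have := mul_le_mul_of_nonneg_left h7 h9
        linarith
  have hRi : Integrable (fun x : E n => (1 + κ) * ‖(a / s) • x + W x - y x‖ ^ 2 +
      (1 + κ⁻¹) * (2 * (‖x‖ / s - 1) ^ 2 + 2 * s⁻¹ ^ 2)) (gm n) :=
    (hAi.const_mul _).add (((hNi.const_mul 2).add (integrable_const _)).const_mul _)
  have hmono : ∫ x, Pool.Agent.CL.far C (a • un x + W x) ^ 2 ∂(gm n) ≤
      ∫ x : E n, ((1 + κ) * ‖(a / s) • x + W x - y x‖ ^ 2 +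
      (1 + κ⁻¹) * (2 * (‖x‖ / s - 1) ^ 2 + 2 * s⁻¹ ^ 2)) ∂(gm n) :=
    integral_mono_of_nonneg (ae_of_all _ fun x => sq_nonneg _) hRi (ae_of_all _ hpt)
  have hval : ∫ x : E n, ((1 + κ) * ‖(a / s) • x + W x - y x‖ ^ 2 +
      (1 + κ⁻¹) * (2 * (‖x‖ / s - 1) ^ 2 + 2 * s⁻¹ ^ 2)) ∂(gm n) =
      (1 + κ) * (∫ x : E n, ‖(a / s) • x + W x - y x‖ ^ 2 ∂(gm n)) +
      (1 + κ⁻¹) * (2 * (∫ x : E n, (‖x‖ / s - 1) ^ 2 ∂(gm n)) + 2 * s⁻¹ ^ 2) := by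
    have e1 : ∫ x : E n, (2 * (‖x‖ / s - 1) ^ 2 + 2 * s⁻¹ ^ 2) ∂(gm n) =
        2 * (∫ x : E n, (‖x‖ / s - 1) ^ 2 ∂(gm n)) + 2 * s⁻¹ ^ 2 := by
      have e2 := integral_add (μ := gm n) (hNi.const_mul 2) (integrable_const (2 * s⁻¹ ^ 2))
      rw [integral_const_mul, integral_const, probReal_univ, one_smul] at e2
      exact e2
    have e3 := integral_add (μ := gm n) (hAi.const_mul (1 + κ))
      (((hNi.const_mul 2).add (integrable_const (2 * s⁻¹ ^ 2))).const_mul (1 + κ⁻¹))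
    rw [integral_const_mul, integral_const_mul] at e3
    refine e3.trans ?_
    congr 2
  rw [hval] at hmono
  have h1 : (1 + κ) * (∫ x : E n, ‖(a / s) • x + W x - y x‖ ^ 2 ∂(gm n)) ≤ (1 + κ) * (1 - η + 2 * s⁻¹) := by
    refine mul_le_mul_of_nonneg_left ?_ (by positivity)
    have : 2 / s = 2 * s⁻¹ := div_eq_mul_inv _ _
    linarith
  have h2 : (1 + κ⁻¹) * (2 * (∫ x : E n, (‖x‖ / s - 1) ^ 2 ∂(gm n)) + 2 * s⁻¹ ^ 2) ≤ (1 + κ⁻¹) * (6 * s⁻¹ ^ 2) := by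
    refine mul_le_mul_of_nonneg_left ?_ (by positivity)
    have h3 : 2 / (n : ℝ) = 2 * s⁻¹ ^ 2 := by
      rw [← hs2, inv_pow, div_eq_mul_inv]
    rw [h3] at hNb
    linarith
  linarith

end Pool.Agent.CX
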