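import Pool.Agent.helper81.CX.Spec2

/-! Project cx, row SEQ: log-convex sequences with a geometric bound. -/

set_option autoImplicit false

namespace Pool.Agent.CX

open MeasureTheory Set Filter Topology
open scoped ENNReal
open Pool.Agent.helper81.CW

theorem SEQ : SEQ_stmt := by
  intro a q K hq ha hlc hK j
  by_contra hlt
  rw [not_le] at hlt
  have haj : 0 < a j := by
    rcases (ha j).lt_or_eq with h | h
    · exact h
    · have h1 := hlc j
      rw [← h, zero_mul] at h1
      rw [← h, mul_zero] at hlt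
      have h2 : 0 < a (j + 1) ^ 2 := by positivity
      linarith
  obtain ⟨r, hr⟩ : ∃ r : ℝ, r = a (j + 1) / a j := ⟨_, rfl⟩
  have hrq : q < r := by
    rw [hr, lt_div_iff₀ haj]
    exact hlt
  have hr0 : 0 < r := hq.trans hrq
  have h1 : ∀ i : ℕ, 0 < a (j + i) ∧ r * a (j + i) ≤ a (j + i + 1) := by
    intro i
    induction i with
    | zero =>
      refine ⟨haj, ?_⟩
      show r * a j ≤ a (j + 1)
      rw [hr, div_mul_cancel₀ _ haj.ne']
    | succ i ih =>
      obtain ⟨h2, h3⟩ := ih
      have h4 : 0 < a (j + i + 1) := lt_of_lt_of_le (mul_pos hr0 h2) h3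
      refine ⟨h4, ?_⟩
      have h5 := hlc (j + i)
      have h6 : a (j + i) * (r * a (j + i + 1)) ≤ a (j + i) * a (j + i + 2) := by
        calc a (j + i) * (r * a (j + i + 1)) = (r * a (j + i)) * a (j + i + 1) := by ring
          _ ≤ a (j + i + 1) * a (j + i + 1) := mul_le_mul_of_nonneg_right h3 h4.le
          _ = a (j + i + 1) ^ 2 := by ring
          _ ≤ a (j + i) * a (j + i + 2) := h5
      exact le_of_mul_le_mul_left h6 h2
  have h2 : ∀ i : ℕ, r ^ i * a j ≤ a (j + i) := by
    intro i
    induction i with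
    | zero => rw [pow_zero, one_mul, add_zero]
    | succ i ih =>
      calc r ^ (i + 1) * a j = r * (r ^ i * a j) := by ring
        _ ≤ r * a (j + i) := mul_le_mul_of_nonneg_left ih hr0.le
        _ ≤ a (j + i + 1) := (h1 i).2
  have h3 : Tendsto (fun i : ℕ => (r / q) ^ i) atTop atTop :=
    tendsto_pow_atTop_atTop_of_one_lt ((one_lt_div hq).2 hrq)
  have h4 : ∀ᶠ i : ℕ in atTop, a (j + i) ≤ K * q ^ (j + i) := by
    obtain ⟨N, hN⟩ := eventually_atTop.1 hK
    exact eventually_atTop.2 ⟨N, fun i hi => hN (j + i) (by omega)⟩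
  obtain ⟨i, h5, h6⟩ := ((h3.eventually_gt_atTop (K * q ^ j / a j)).and h4).exists
  rw [div_lt_iff₀ haj, div_pow] at h5
  have hqi : 0 < q ^ i := pow_pos hq i
  have h7 : K * q ^ j * q ^ i < r ^ i * a j := by
    calc K * q ^ j * q ^ i < r ^ i / q ^ i * a j * q ^ i := mul_lt_mul_of_pos_right h5 hqi
      _ = r ^ i * a j := by field_simp
  have h8 : K * q ^ j * q ^ i = K * q ^ (j + i) := by rw [pow_add]; ring
  have h9 := h2 i
  linarith

end Pool.Agent.CX
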