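import Pool.Agent.helper25.CX.Spec

/-! Project cx, row TY1: Markov's inequality for the mean deviation of the support function. -/

set_option autoImplicit false

namespace Pool.Agent.CX

open MeasureTheory Set Filter Topology
open scoped ENNReal
open Pool.Agent.helper81.CW

theorem TY1_int (hJ4 : J4_stmt) (n : ℕ) (C : Set (E n)) (R : ℝ) (hC : C.Nonempty) (hR : 0 ≤ R)
    (hCR : ∀ x ∈ C, ‖x‖ ≤ R) (μ : Measure (E n)) [IsFiniteMeasure μ] :
    Integrable (fun x : E n => |supp C x / ‖x‖ - 1 / 2|) μ := by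
  obtain ⟨-, h2, h3⟩ := hJ4 n C R hC hR hCR
  have hlip : LipschitzWith (Real.toNNReal R) (supp C) := by
    apply LipschitzWith.of_dist_le_mul
    intro x y
    rw [Real.dist_eq, dist_eq_norm, Real.coe_toNNReal R hR]
    exact h2 x y
  have hmeas : Measurable fun x : E n => |supp C x / ‖x‖ - 1 / 2| := by
    have h4 : Measurable (supp C) := hlip.continuous.measurable
    have h5 : Measurable fun x : E n => supp C x / ‖x‖ - 1 / 2 := (h4.div measurable_norm).sub_const _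
    exact continuous_abs.measurable.comp h5
  have h0 : supp C (0 : E n) = 0 := by
    have h4 := h3 0 0 le_rfl
    rw [zero_smul, zero_mul] at h4
    exact h4
  refine Integrable.of_bound hmeas.aestronglyMeasurable (R + 1 / 2) (Eventually.of_forall fun x => ?_)
  rw [Real.norm_eq_abs, abs_abs]
  have h4 : |supp C x| ≤ R * ‖x‖ := by
    have h5 := h2 x 0
    rw [h0, sub_zero, sub_zero] at h5
    exact h5
  have h6 : |supp C x / ‖x‖| ≤ R := by
    rw [abs_div, abs_norm]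
    exact div_le_of_le_mul₀ (norm_nonneg x) hR h4
  calc |supp C x / ‖x‖ - 1 / 2| ≤ |supp C x / ‖x‖| + |(1 / 2 : ℝ)| := abs_sub _ _
    _ ≤ R + 1 / 2 := by
      rw [abs_of_pos (by norm_num : (0 : ℝ) < 1 / 2)]
      linarith

theorem TY1 (hG1 : G1_stmt) (hJ4 : J4_stmt) (hJ6 : J6_stmt) : TY1_stmt := by
  intro ε hε
  obtain ⟨N, hN⟩ := exists_nat_ge (1 / (2 * ε ^ 4))
  filter_upwards [eventually_ge_atTop (N + 1)] with n hn C hC hC2
  have hn0 : 0 < n := by omega
  have hprob : IsProbabilityMeasure (gm n) := (hG1 n).1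
  obtain ⟨R, hRd⟩ : ∃ R : ℝ, R = Real.sqrt (1 / 2) := ⟨_, rfl⟩
  have hR : 0 ≤ R := by
    rw [hRd]
    exact Real.sqrt_nonneg _
  have hR2 : R ^ 2 = 1 / 2 := by
    rw [hRd]
    exact Real.sq_sqrt (by norm_num)
  have hCR : ∀ x ∈ C, ‖x‖ ≤ R := by
    intro x hx
    rw [hRd]
    exact Real.le_sqrt_of_sq_le (hC2 x hx)
  have h1 := hJ6 n C R hn0 hC hR hCR
  have hint := TY1_int hJ4 n C R hC.1 hR hCR (gm n)
  have h2 := mul_meas_ge_le_integral_of_nonneg (μ := gm n)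
    (f := fun x : E n => |supp C x / ‖x‖ - 1 / 2|) (Eventually.of_forall fun x => abs_nonneg _) hint ε
  have hnr : (1 / (2 * ε ^ 4) : ℝ) ≤ n := by
    refine le_trans hN ?_
    have : (N : ℝ) ≤ (n : ℝ) := by
      exact_mod_cast (by omega : N ≤ n)
    exact this
  have hnpos : (0 : ℝ) < n := by exact_mod_cast hn0
  have hs : 0 < Real.sqrt n := Real.sqrt_pos.2 hnpos
  have h3 : R / Real.sqrt n ≤ ε ^ 2 := by
    rw [div_le_iff₀ hs]
    have h4 : R ^ 2 ≤ (ε ^ 2 * Real.sqrt n) ^ 2 := by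
      rw [mul_pow, Real.sq_sqrt hnpos.le, hR2]
      have h5 : 1 / (2 * ε ^ 4) * ε ^ 4 ≤ n * ε ^ 4 := mul_le_mul_of_nonneg_right hnr (by positivity)
      have h6 : 1 / (2 * ε ^ 4) * ε ^ 4 = 1 / 2 := by
        field_simp
      rw [h6] at h5
      calc (1 / 2 : ℝ) ≤ n * ε ^ 4 := h5
        _ = (ε ^ 2) ^ 2 * n := by ring
    exact (sq_le_sq₀ hR (by positivity)).1 h4
  have h4 : (gm n).real {x : E n | ε ≤ |supp C x / ‖x‖ - 1 / 2|} ≤ ε := by
    have h5 : ε * (gm n).real {x : E n | ε ≤ |supp C x / ‖x‖ - 1 / 2|} ≤ ε * ε := by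
      calc ε * (gm n).real {x : E n | ε ≤ |supp C x / ‖x‖ - 1 / 2|} ≤ _ := h2
        _ ≤ R / Real.sqrt n := h1
        _ ≤ ε ^ 2 := h3
        _ = ε * ε := by ring
    exact le_of_mul_le_mul_left h5 hε
  calc gm n {x : E n | ε < |supp C x / ‖x‖ - 1 / 2|}
      ≤ gm n {x : E n | ε ≤ |supp C x / ‖x‖ - 1 / 2|} :=
        measure_mono fun x (hx : ε < |supp C x / ‖x‖ - 1 / 2|) => (show ε ≤ |supp C x / ‖x‖ - 1 / 2| from hx.le)
    _ = ENNReal.ofReal ((gm n).real {x : E n | ε ≤ |supp C x / ‖x‖ - 1 / 2|}) := by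
      rw [Measure.real, ENNReal.ofReal_toReal (measure_ne_top _ _)]
    _ ≤ ENNReal.ofReal ε := ENNReal.ofReal_le_ofReal h4

end Pool.Agent.CX
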